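import Pool.Agent.Y285.PK.Gevrey

/-!
# Peak sets of analytic Lipschitz classes need not be zero sets of Gevrey classes

For every `0 < α < 1` there is a countable closed set `E` on the unit circle which is a peak set for
the analytic Lipschitz class `A_α` and is not a zero set for the Gevrey class `G_α`. So
`P_α ≠ Z(G_α)` for every `0 < α < 1`.

The set `E` consists of the point `1` and of points `ζ_i → 1`; the peak function is `1 - 1 / g` with
`g(z) = 1 / (1 - z) + ε ∑ 1 / (s_i ^ α + r_i ^ (α - 1) s_i)`, `s_i = 1 - conj(ζ_i) z`. The field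
`1 / (1 - z)` of the point `1` allows the other points to carry so little mass that
`∫ dist(ζ, E) ^ (-α) dm = ∞`, which is impossible for a zero set of `G_α`.
-/

namespace Pool.Agent.Results.MP_129fce_an.PeakNotGevreyZero

open Metric Set Filter Topology

/-- The class `A_α`: functions analytic in the open unit disc, continuous on the closed disc, and
Lipschitz of order `α` on the unit circle. -/
def MemA (α : ℝ) (f : ℂ → ℂ) : Prop :=
  DifferentiableOn ℂ f (ball 0 1) ∧ ContinuousOn f (closedBall 0 1) ∧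
  ∃ C : ℝ, ∀ z ∈ sphere (0 : ℂ) 1, ∀ w ∈ sphere (0 : ℂ) 1, ‖f z - f w‖ ≤ C * ‖z - w‖ ^ α

/-- `E` is a peak set for `A_α`: a closed subset of the unit circle such that some `f ∈ A_α` equals
`1` on `E` and has modulus less than `1` on the rest of the circle. -/
def IsPeakSet (α : ℝ) (E : Set ℂ) : Prop :=
  IsClosed E ∧ E ⊆ sphere (0 : ℂ) 1 ∧
  ∃ f : ℂ → ℂ, MemA α f ∧ (∀ z ∈ E, f z = 1) ∧ ∀ z ∈ sphere (0 : ℂ) 1 \ E, ‖f z‖ < 1

/-- The Gevrey class `G_α`: functions analytic in the open unit disc with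
`sup |f^(n)| ≤ C ^ (n + 1) (n!) ^ (1 + 1 / α)` for all `n ≥ 0`, for some constant `C`. -/
def MemG (α : ℝ) (f : ℂ → ℂ) : Prop :=
  DifferentiableOn ℂ f (ball 0 1) ∧
  ∃ C : ℝ, ∀ n : ℕ, ∀ z ∈ ball (0 : ℂ) 1,
    ‖iteratedDeriv n f z‖ ≤ C ^ (n + 1) * (n.factorial : ℝ) ^ (1 + 1 / α)

/-- `E` is a zero set for `G_α`: some `f ∈ G_α`, not identically zero in the disc, has all its
derivatives (in the sense of boundary values, the limits from the disc) equal to zero on `E`. -/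
def IsGevreyZeroSet (α : ℝ) (E : Set ℂ) : Prop :=
  ∃ f : ℂ → ℂ, MemG α f ∧ (∃ z ∈ ball (0 : ℂ) 1, f z ≠ 0) ∧
    ∀ e ∈ E, ∀ n : ℕ, Tendsto (iteratedDeriv n f) (𝓝[ball 0 1] e) (𝓝 0)

/-- For every `0 < α < 1` there is a countable peak set for `A_α` which is not a zero set for the
Gevrey class `G_α`. -/
theorem result : ∀ α : ℝ, 0 < α → α < 1 →
    ∃ E : Set ℂ, E.Countable ∧ IsPeakSet α E ∧ ¬ IsGevreyZeroSet α E := by
  intro α h0 h1
  set D := Pool.Agent.Y285.PK.theDat h0 h1 with hD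
  obtain ⟨hcl, f, hf1, hf2, ⟨C, hf3⟩, hf4, hf5⟩ := D.peak h0 h1
  have hsub : D.E ⊆ sphere (0 : ℂ) 1 := fun z hz => by
    rw [mem_sphere_zero_iff_norm]
    exact D.norm_E hz
  refine ⟨D.E, (countable_range _).insert _, ⟨hcl, hsub, f, ⟨hf1, hf2, C, ?_⟩, hf4, ?_⟩, ?_⟩
  · intro z hz w hw
    exact hf3 z (sphere_subset_closedBall hz) w (sphere_subset_closedBall hw)
  · rintro z ⟨hz, hzE⟩
    exact hf5 z (sphere_subset_closedBall hz) hzE
  · rintro ⟨F, ⟨hF, K, hK⟩, ⟨z, hz, hFz⟩, ht⟩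
    exact hFz (Pool.Agent.Y285.PK.not_gevrey h0 h1 hF hK ht z hz)

end Pool.Agent.Results.MP_129fce_an.PeakNotGevreyZero
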